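import Mathlib

set_option autoImplicit false
set_option linter.all false

/-! Project NF (helper253), job DED (helper151): the core. -/

namespace Pool.Agent.Q151.NF

open Complex Filter Topology Set NumberField
open scoped ComplexConjugate

theorem eps_core (X : ℂ → ℂ) (hX : Differentiable ℂ X)
    (sym : ∀ z : ℂ, X (-conj z) = conj (X z)) (c : ℂ) (hc : c ≠ 0)
    (hr : ∀ x : ℝ, 1 / 2 < x → conj (X x / c) = X x / c) :
    ∃ ε : ℂ, ε ≠ 0 ∧ (∀ z : ℂ, X (-z) = ε * X z) ∧
      ∀ a : ℂ, analyticOrderNatAt X (-a) = analyticOrderNatAt X a := by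
  have hY : Differentiable ℂ (fun z => X z / c) := hX.div_const c
  have hZ : Differentiable ℂ (fun z => conj ((fun z => X z / c) (conj z))) := by
    intro z
    have h1 := (hY (conj z)).conj_conj
    rw [conj_conj] at h1
    exact h1
  have heq : (fun z => X z / c) = fun z => conj ((fun z => X z / c) (conj z)) := by
    have h1 : AnalyticOnNhd ℂ (fun z => X z / c) univ := fun z _ => hY.analyticAt z
    have h2 : AnalyticOnNhd ℂ (fun z => conj ((fun z => X z / c) (conj z))) univ := fun z _ =>
      hZ.analyticAt z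
    have h3 : ∃ᶠ z in 𝓝[≠] (1 : ℂ), X z / c = conj ((fun z => X z / c) (conj z)) := by
      have hu : Tendsto (fun n : ℕ => ((1 + 1 / ((n : ℝ) + 1) : ℝ) : ℂ)) atTop (𝓝[≠] (1 : ℂ)) := by
        rw [tendsto_nhdsWithin_iff]
        constructor
        · have h4 : Tendsto (fun n : ℕ => (1 + 1 / ((n : ℝ) + 1) : ℝ)) atTop (𝓝 (1 + 0)) :=
            tendsto_const_nhds.add tendsto_one_div_add_atTop_nhds_zero_nat
          rw [add_zero] at h4
          have h5 := (continuous_ofReal.tendsto (1 : ℝ)).comp h4
          rw [ofReal_one] at h5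
          exact h5
        · refine Eventually.of_forall fun n => ?_
          rw [mem_compl_iff, mem_singleton_iff]
          intro h4
          have h5 : (1 + 1 / ((n : ℝ) + 1) : ℝ) = 1 := by exact_mod_cast h4
          have h6 : (0 : ℝ) < 1 / ((n : ℝ) + 1) := by positivity
          linarith
      refine hu.frequently (Eventually.frequently (Eventually.of_forall fun n => ?_))
      have h6 : (0 : ℝ) < 1 / ((n : ℝ) + 1) := by positivity
      have h7 := hr (1 + 1 / ((n : ℝ) + 1)) (by linarith)
      show X _ / c = conj (X (conj _) / c)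
      rw [conj_ofReal, h7]
    have h4 := h1.eqOn_of_preconnected_of_frequently_eq h2 isPreconnected_univ (mem_univ 1) h3
    funext z
    exact h4 (mem_univ z)
  have hε : conj c / c ≠ 0 := div_ne_zero ((map_ne_zero _).2 hc) hc
  have hsym : ∀ z : ℂ, X (-z) = conj c / c * X z := by
    intro z
    have h1 := sym (conj z)
    rw [conj_conj] at h1
    have h2 : X z / c = conj (X (conj z) / c) := congrFun heq z
    rw [map_div₀] at h2
    have hcc : conj c ≠ 0 := (map_ne_zero _).2 hc
    rw [h1]
    field_simp at h2 ⊢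
    linear_combination -h2
  refine ⟨conj c / c, hε, hsym, fun a => ?_⟩
  have h1 : analyticOrderAt (X ∘ fun z => -z) a = analyticOrderAt X (-a) := by
    refine analyticOrderAt_comp_of_deriv_ne_zero (f := X) (g := fun z : ℂ => -z)
      analyticAt_id.neg ?_
    rw [deriv_neg'']
    norm_num
  have h2 : (X ∘ fun z => -z) = (fun _ => conj c / c) * X := by
    funext z
    exact hsym z
  rw [h2, analyticOrderAt_mul analyticAt_const (hX.analyticAt a),
    analyticAt_const.analyticOrderAt_eq_zero.2 hε, zero_add] at h1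
  unfold analyticOrderNatAt
  rw [← h1]

/-- reality -/
theorem gammaR_real (x : ℝ) : ∃ r : ℝ, Gammaℝ (x : ℂ) = r := by
  refine ⟨Real.pi ^ (-x / 2) * Real.Gamma (x / 2), ?_⟩
  rw [Gammaℝ_def, ofReal_mul, ofReal_cpow Real.pi_pos.le, ← Complex.Gamma_ofReal]
  push_cast
  rfl

theorem zeta_real (E : Type) [Field E] [NumberField E] (x : ℝ) :
    ∃ r : ℝ, dedekindZeta E (x : ℂ) = r := by
  refine ⟨∑' n : ℕ, if n = 0 then 0 else
    (Nat.card {I : Ideal (𝓞 E) // Ideal.absNorm I = n} : ℝ) / (n : ℝ) ^ x, ?_⟩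
  unfold dedekindZeta LSeries
  rw [ofReal_tsum]
  refine tsum_congr fun n => ?_
  by_cases h : n = 0
  · subst h
    simp
  · rw [LSeries.term_of_ne_zero h, if_neg h, ofReal_div, ofReal_cpow (Nat.cast_nonneg _)]
    push_cast
    rfl

/-- the completed zeta function is real -/
theorem xi_real (E : Type) [Field E] [NumberField E] (x : ℝ) : ∃ r : ℝ,
    (x : ℂ) * (x - 1) * ((|(discr E : ℝ)| : ℝ) : ℂ) ^ ((x : ℂ) / 2) *
      Gammaℝ x ^ InfinitePlace.nrRealPlaces E *
      Gammaℂ x ^ InfinitePlace.nrComplexPlaces E * dedekindZeta E x = r := by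
  obtain ⟨a, ha⟩ := gammaR_real x
  obtain ⟨b, hb⟩ := gammaR_real (x + 1)
  obtain ⟨z, hz⟩ := zeta_real E x
  have e1 : ((|(discr E : ℝ)| : ℝ) : ℂ) ^ ((x : ℂ) / 2) =
      ((|(discr E : ℝ)| ^ (x / 2) : ℝ) : ℂ) := by
    rw [ofReal_cpow (abs_nonneg _)]
    push_cast
    rfl
  have e2 : Gammaℂ (x : ℂ) = ((a * b : ℝ) : ℂ) := by
    rw [← Gammaℝ_mul_Gammaℝ_add_one, ha, ofReal_mul, ← hb]
    push_cast
    rfl
  rw [e1, e2, ha, hz]
  refine ⟨x * (x - 1) * |(discr E : ℝ)| ^ (x / 2) * a ^ InfinitePlace.nrRealPlaces E *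
    (a * b) ^ InfinitePlace.nrComplexPlaces E * z, ?_⟩
  push_cast
  ring

open Classical in
theorem cardR (E : Type) [Field E] [NumberField E] :
    Nat.card {w : InfinitePlace E // w.IsReal} = InfinitePlace.nrRealPlaces E :=
  Nat.card_eq_fintype_card

open Classical in
theorem cardC (E : Type) [Field E] [NumberField E] :
    Nat.card {w : InfinitePlace E // w.IsComplex} = InfinitePlace.nrComplexPlaces E :=
  Nat.card_eq_fintype_card

/-- the Gamma factor of the trivial character -/
theorem gam_zero (E : Type) [Field E] [NumberField E] (a b : ℂ)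
    [DecidablePred fun w : InfinitePlace E => w.IsReal] :
    (∏ w : InfinitePlace E, if w.IsReal then a else b) =
      a ^ InfinitePlace.nrRealPlaces E * b ^ InfinitePlace.nrComplexPlaces E := by
  rw [Finset.prod_ite, Finset.prod_const, Finset.prod_const]
  have h1 : (Finset.univ.filter fun w : InfinitePlace E => w.IsReal).card =
      InfinitePlace.nrRealPlaces E := by
    rw [← cardR]
    exact (Nat.subtype_card _ (fun w => by simp)).symm
  have h2 : (Finset.univ.filter fun w : InfinitePlace E => ¬ w.IsReal).card =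
      InfinitePlace.nrComplexPlaces E := by
    rw [← cardC]
    exact (Nat.subtype_card _ (fun w => by simp [InfinitePlace.not_isReal_iff_isComplex])).symm
  rw [h1, h2]

end Pool.Agent.Q151.NF
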