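import Pool.Agent.Q253.NF.Stm2
import Pool.Agent.Q151.NF.DedCore
import Pool.Agent.Y772.NZ.Zeta

set_option autoImplicit false
set_option linter.all false

/-! Project NF (helper253), job DED (helper151). -/

namespace Pool.Agent.Q151.NF

open MeasureTheory Filter Topology Set Complex NumberField IsDedekindDomain
open Pool.Agent.Q92.AR (Continues Pos)
open Pool.Agent.Q253.NF
open Pool.Agent.Y773 (LI)
open Pool.Agent.Y772.NZ (one one_ne LI_one)
open scoped ComplexConjugate

theorem prim_one (E : Type) [Field E] [NumberField E] :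
    Prim (⊤ : Ideal (𝓞 E)) (fun _ => 0) (one E) where
  ne_bot := top_ne_bot
  e_le := fun w => Nat.zero_le _
  e_complex := fun w _ => rfl
  supp := fun 𝔞 h => by
    have h1 : one E 𝔞 ≠ 0 := by
      rw [one_ne E h]
      exact one_ne_zero
    have h2 : IsCoprime 𝔞 ⊤ := by
      rw [← Ideal.one_eq_top]
      exact isCoprime_one_right
    exact ⟨fun _ => h2, fun _ => h1⟩
  sig := fun x hx _ => by
    have h1 : Ideal.span {x} ≠ (0 : Ideal (𝓞 E)) := by
      rw [Ne, Ideal.zero_eq_bot, Ideal.span_singleton_eq_bot]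
      exact hx
    rw [one_ne E h1]
    simp
  prim := fun 𝔤 h1 h2 => by
    exfalso
    apply h2
    rw [← Ideal.one_eq_top] at h1 ⊢
    exact (Ideal.isUnit_iff.1 (isUnit_of_dvd_one h1)).trans Ideal.one_eq_top.symm

theorem t_DED : S_DED := by
  classical
  intro hLT hRAY hORD E _ _
  obtain ⟨D, hD⟩ := hRAY hLT E ⊤ (fun _ => 0) (one E) (prim_one E)
  have hp : D.p = 1 := by
    rw [hD.p, if_pos]
    intro 𝔞 h𝔞
    exact one_ne E h𝔞
  obtain ⟨⟨f0, hf0⟩, hord⟩ := hORD E ⊤ (fun _ => 0) (one E) D (prim_one E) hD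
  have hXi : ∃ c : ℂ, c ≠ 0 ∧ ∀ z : ℂ, 1 / 2 < z.re → D.X z = c * xiF E (1 / 2 + z) := by
    obtain ⟨c, hc, hX⟩ := hD.X
    refine ⟨c, hc, fun z hz => ?_⟩
    have hre : 1 < ((1 : ℂ) / 2 + z).re := by
      rw [add_re]
      have : ((1 : ℂ) / 2).re = 1 / 2 := by norm_num
      rw [this]
      linarith
    rw [hX z hz, LI_one E hre, hp, pow_one]
    have h1 : gam (F := E) (fun _ => 0) (1 / 2 + z) =
        Gammaℝ (1 / 2 + z) ^ InfinitePlace.nrRealPlaces E *
          Gammaℂ (1 / 2 + z) ^ InfinitePlace.nrComplexPlaces E := by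
      rw [← gam_zero E (Gammaℝ (1 / 2 + z)) (Gammaℂ (1 / 2 + z))]
      unfold gam
      refine Finset.prod_congr rfl fun w _ => ?_
      simp
    have h2 : (((Ideal.absNorm (⊤ : Ideal (𝓞 E)) : ℝ) * |(discr E : ℝ)| : ℝ) : ℂ) =
        ((|(discr E : ℝ)| : ℝ) : ℂ) := by
      rw [Ideal.absNorm_top]
      simp
    rw [h1, h2]
    unfold xiF
    ring
  refine ⟨D, hp, fun u => ?_, hXi, ⟨f0, hf0.congr fun s hs => LI_one E hs⟩, fun f hf s hs => ?_, ?_⟩
  · rw [hD.E]
    unfold ks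
    refine tsum_congr fun x => ?_
    have h1 : one E x.1.asIdeal = 1 := one_ne E x.1.ne_bot
    simp only [h1, one_pow]
  · have h1 : Continues f (LI (one E)) := hf.congr fun s hs => (LI_one E hs).symm
    rw [hord f h1 s hs, hp]
    rfl
  · obtain ⟨c, hc, hX⟩ := hXi
    obtain ⟨ε, h1, h2, h3⟩ := eps_core D.X D.diff D.sym c hc (fun x hx => by
      obtain ⟨r, hr⟩ := xi_real E (1 / 2 + x)
      have h4 : D.X x / c = (r : ℂ) := by
        rw [hX x (by rw [ofReal_re]; exact hx), mul_div_cancel_left₀ _ hc, ← hr]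
        unfold xiF
        push_cast
        rfl
      rw [h4, conj_ofReal])
    exact ⟨⟨ε, h1, h2⟩, h3⟩

end Pool.Agent.Q151.NF
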