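import Mathlib

set_option autoImplicit false
set_option linter.all false

/-! Project NF (helper253), job LTG (helper151): the Laplace transform of sums with the kernel
`exp (-|u - l|)`, general index set.  Adapted from `Pool/Agent/Q14/LQ/Lt.lean`. -/

namespace Pool.Agent.Q151.NF

open MeasureTheory Complex Filter Topology Set

variable {κ : Type}

/-- sums with the two-sided exponential kernel -/
noncomputable def ES (b : κ → ℂ) (l : κ → ℝ) (u : ℝ) : ℂ :=
  ∑' n : κ, b n * ((Real.exp (-|u - l n|) : ℝ) : ℂ)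

/-- the growth condition -/
def HB (b : κ → ℂ) (l : κ → ℝ) : Prop :=
  ∀ x : ℝ, 1 / 2 < x → Summable (fun n : κ => ‖b n‖ * Real.exp (-(x * l n)))

theorem ker_le {x : ℝ} (hx0 : 0 ≤ x) (hx : x ≤ 1) (u v : ℝ) :
    Real.exp (-|u - v|) ≤ Real.exp (x * u) * Real.exp (-(x * v)) := by
  rw [← Real.exp_add]
  apply Real.exp_le_exp.2
  have h1 : -(u - v) ≤ |u - v| := neg_le_abs _
  have h2 : 0 ≤ |u - v| := abs_nonneg _
  have h3 : x * |u - v| ≤ |u - v| := by nlinarith
  have h4 : x * (-(u - v)) ≤ x * |u - v| := mul_le_mul_of_nonneg_left h1 hx0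
  linarith

theorem term_le {b : κ → ℂ} {l : κ → ℝ} {x : ℝ} (hx0 : 0 ≤ x) (hx : x ≤ 1) (u : ℝ) (n : κ) :
    ‖b n * ((Real.exp (-|u - l n|) : ℝ) : ℂ)‖ ≤
      Real.exp (x * u) * (‖b n‖ * Real.exp (-(x * l n))) := by
  rw [norm_mul, Complex.norm_real, Real.norm_of_nonneg (Real.exp_pos _).le]
  calc ‖b n‖ * Real.exp (-|u - l n|) ≤ ‖b n‖ * (Real.exp (x * u) * Real.exp (-(x * l n))) :=
        mul_le_mul_of_nonneg_left (ker_le hx0 hx _ _) (norm_nonneg _)
    _ = _ := by ring

theorem ES_summable {b : κ → ℂ} {l : κ → ℝ} (hb : HB b l) (u : ℝ) :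
    Summable (fun n : κ => ‖b n * ((Real.exp (-|u - l n|) : ℝ) : ℂ)‖) :=
  Summable.of_nonneg_of_le (fun _ => norm_nonneg _)
    (fun n => term_le (x := 1) zero_le_one le_rfl u n) ((hb 1 (by norm_num)).mul_left _)

theorem ES_bound {b : κ → ℂ} {l : κ → ℝ} (hb : HB b l) {x : ℝ} (hx0 : 1 / 2 < x) (hx : x ≤ 1)
    (u : ℝ) : ‖ES b l u‖ ≤ (∑' n : κ, ‖b n‖ * Real.exp (-(x * l n))) * Real.exp (x * u) := by
  have h1 := (hb x hx0).mul_left (Real.exp (x * u))
  calc ‖ES b l u‖ ≤ ∑' n : κ, ‖b n * ((Real.exp (-|u - l n|) : ℝ) : ℂ)‖ :=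
        norm_tsum_le_tsum_norm (ES_summable hb u)
    _ ≤ ∑' n : κ, Real.exp (x * u) * (‖b n‖ * Real.exp (-(x * l n))) :=
        (ES_summable hb u).tsum_le_tsum (fun n => term_le (by linarith) hx u n) h1
    _ = _ := by rw [tsum_mul_left, mul_comm]

theorem ES_cont {b : κ → ℂ} {l : κ → ℝ} (hb : HB b l) : Continuous (ES b l) := by
  rw [continuous_iff_continuousAt]
  intro u
  have h1 : ContinuousOn (ES b l) (Iio (u + 1)) := by
    unfold ES
    refine continuousOn_tsum
      (u := fun n => Real.exp (1 * (u + 1)) * (‖b n‖ * Real.exp (-(1 * l n))))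
      (fun n => ?_) ((hb 1 (by norm_num)).mul_left _) (fun n y hy => ?_)
    · apply Continuous.continuousOn
      fun_prop
    · refine (term_le (x := 1) zero_le_one le_rfl y n).trans ?_
      have hy' : y < u + 1 := hy
      gcongr
  exact h1.continuousAt (Iio_mem_nhds (by linarith))

theorem base_intble {z : ℂ} (hz : 0 < z.re) (v : ℝ) :
    IntegrableOn (fun u : ℝ => ((Real.exp (-|u - v|) : ℝ) : ℂ) * cexp (-z * u)) (Ioi 0) := by
  have h1 : IntegrableOn (fun u : ℝ => cexp (-z * u)) (Ioi 0) :=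
    integrableOn_exp_mul_complex_Ioi (by simpa using hz) 0
  refine Integrable.mono' h1.norm ?_ (Eventually.of_forall fun u => ?_)
  · apply Continuous.aestronglyMeasurable
    fun_prop
  · rw [norm_mul, Complex.norm_real, Real.norm_of_nonneg (Real.exp_pos _).le]
    have : Real.exp (-|u - v|) ≤ 1 := Real.exp_le_one_iff.2 (by simp)
    have h2 := norm_nonneg (cexp (-z * u))
    nlinarith

theorem base_int {z : ℂ} (hz : 0 < z.re) (h1 : z ≠ 1) {v : ℝ} (hv : 0 ≤ v) :
    ∫ u in Ioi (0 : ℝ), ((Real.exp (-|u - v|) : ℝ) : ℂ) * cexp (-z * u) =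
      2 / (1 - z ^ 2) * cexp (-z * v) - 1 / (1 - z) * cexp (-v) := by
  have h1' : 1 - z ≠ 0 := sub_ne_zero.2 (Ne.symm h1)
  have h2' : 1 + z ≠ 0 := by
    intro h
    have := congrArg Complex.re h
    simp at this
    linarith
  have h3' : 1 - z ^ 2 ≠ 0 := by
    have : 1 - z ^ 2 = (1 - z) * (1 + z) := by ring
    rw [this]
    exact mul_ne_zero h1' h2'
  have hI := base_intble hz v
  rw [← Ioc_union_Ioi_eq_Ioi hv, setIntegral_union (Ioc_disjoint_Ioi le_rfl) measurableSet_Ioi
    (hI.mono_set Ioc_subset_Ioi_self) (hI.mono_set (Ioi_subset_Ioi hv))]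
  have e1 : ∫ u in Ioc (0 : ℝ) v, ((Real.exp (-|u - v|) : ℝ) : ℂ) * cexp (-z * u) =
      ∫ u in Ioc (0 : ℝ) v, cexp (-v) * cexp ((1 - z) * u) := by
    refine setIntegral_congr_fun measurableSet_Ioc fun u hu => ?_
    have : |u - v| = v - u := by
      rw [abs_of_nonpos (by linarith [hu.2])]
      ring
    simp only [this]
    rw [Complex.ofReal_exp, ← Complex.exp_add, ← Complex.exp_add]
    congr 1
    push_cast
    ring
  have e2 : ∫ u in Ioi v, ((Real.exp (-|u - v|) : ℝ) : ℂ) * cexp (-z * u) =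
      ∫ u in Ioi v, cexp v * cexp (-(1 + z) * u) := by
    refine setIntegral_congr_fun measurableSet_Ioi fun u hu => ?_
    have hu' : v < u := hu
    have : |u - v| = u - v := abs_of_nonneg (by linarith)
    simp only [this]
    rw [Complex.ofReal_exp, ← Complex.exp_add, ← Complex.exp_add]
    congr 1
    push_cast
    ring
  rw [e1, e2, integral_const_mul, integral_const_mul, integral_exp_mul_complex_Ioi (by simp; linarith),
    ← intervalIntegral.integral_of_le hv, integral_exp_mul_complex h1']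
  have e3 : cexp (-v) * cexp ((1 - z) * v) = cexp (-z * v) := by
    rw [← Complex.exp_add]
    congr 1
    ring
  have e4 : cexp v * cexp (-(1 + z) * v) = cexp (-z * v) := by
    rw [← Complex.exp_add]
    congr 1
    ring
  have e5 : cexp ((1 - z) * ((0 : ℝ) : ℂ)) = 1 := by simp
  rw [e5]
  have h4' : 1 - z ^ 2 = (1 - z) * (1 + z) := by ring
  rw [h4']
  have h5' : -(1 + z) ≠ 0 := neg_ne_zero.2 h2'
  generalize cexp (-z * v) = A at *
  generalize cexp ((1 - z) * v) = B at *
  generalize cexp (-(1 + z) * v) = D at *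
  generalize cexp (-(v : ℂ)) = P at *
  generalize cexp (v : ℂ) = R at *
  field_simp
  linear_combination (1 + z) * e3 + (1 - z) * e4

theorem LT_intble {b : κ → ℂ} {l : κ → ℝ} (hb : HB b l) {z : ℂ} (hz : 1 / 2 < z.re) :
    IntegrableOn (fun u : ℝ => ES b l u * cexp (-z * u)) (Ioi 0) := by
  set x : ℝ := min ((z.re + 1 / 2) / 2) 1 with hx
  have hx1 : x ≤ 1 := min_le_right _ _
  have hx2 : 1 / 2 < x := lt_min (by linarith) (by norm_num)
  have hx3 : x < z.re := (min_le_left _ _).trans_lt (by linarith)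
  have h1 : IntegrableOn (fun u : ℝ => (∑' n : κ, ‖b n‖ * Real.exp (-(x * l n))) *
      Real.exp ((-(z.re - x)) * u)) (Ioi 0) := (integrableOn_exp_mul_Ioi (by linarith) 0).const_mul _
  refine Integrable.mono' h1 ?_ (Eventually.of_forall fun u => ?_)
  · exact ((ES_cont hb).mul (by fun_prop)).aestronglyMeasurable
  · rw [norm_mul, Complex.norm_exp]
    have e : (-z * (u : ℂ)).re = -z.re * u := by simp
    rw [e]
    calc ‖ES b l u‖ * Real.exp (-z.re * u) ≤
          ((∑' n : κ, ‖b n‖ * Real.exp (-(x * l n))) * Real.exp (x * u)) * Real.exp (-z.re * u) :=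
          mul_le_mul_of_nonneg_right (ES_bound hb hx2 hx1 u) (Real.exp_pos _).le
      _ = _ := by
          rw [mul_assoc, ← Real.exp_add]
          congr 2
          ring

/-- the Dirichlet series -/
noncomputable def DS (b : κ → ℂ) (l : κ → ℝ) (z : ℂ) : ℂ := ∑' n : κ, b n * cexp (-z * l n)

theorem DS_norm (b : κ → ℂ) (l : κ → ℝ) (z : ℂ) (n : κ) :
    ‖b n * cexp (-z * l n)‖ = ‖b n‖ * Real.exp (-(z.re * l n)) := by
  rw [norm_mul, Complex.norm_exp]
  congr 2
  rw [Complex.re_mul_ofReal, Complex.neg_re]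
  ring

theorem DS_summable {b : κ → ℂ} {l : κ → ℝ} (hb : HB b l) {z : ℂ} (hz : 1 / 2 < z.re) :
    Summable (fun n : κ => b n * cexp (-z * l n)) := by
  refine Summable.of_norm ?_
  simp_rw [DS_norm]
  exact hb _ hz

theorem LT_ES [Countable κ] {b : κ → ℂ} {l : κ → ℝ} (hl : ∀ k, 0 ≤ l k) (hb : HB b l) {z : ℂ}
    (hz : 1 / 2 < z.re) (h1 : z ≠ 1) :
    ∫ u in Ioi (0 : ℝ), ES b l u * cexp (-z * u) =
      2 / (1 - z ^ 2) * DS b l z - 1 / (1 - z) * DS b l 1 := by
  set x : ℝ := min ((z.re + 1 / 2) / 2) 1 with hx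
  have hx1 : x ≤ 1 := min_le_right _ _
  have hx2 : 1 / 2 < x := lt_min (by linarith) (by norm_num)
  have hx3 : x < z.re := (min_le_left _ _).trans_lt (by linarith)
  have hI : ∀ n : κ, Integrable (fun u : ℝ => (b n * ((Real.exp (-|u - l n|) : ℝ) : ℂ)) * cexp (-z * u))
      (volume.restrict (Ioi 0)) := by
    intro n
    have h := (base_intble (z := z) (by linarith) (l n)).const_mul (b n)
    simp_rw [mul_assoc]
    exact h
  have hK : IntegrableOn (fun u : ℝ => Real.exp ((-(z.re - x)) * u)) (Ioi 0) :=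
    integrableOn_exp_mul_Ioi (by linarith) 0
  have hS : Summable (fun n : κ => ∫ u in Ioi (0 : ℝ),
      ‖(b n * ((Real.exp (-|u - l n|) : ℝ) : ℂ)) * cexp (-z * u)‖) := by
    refine Summable.of_nonneg_of_le (fun n => integral_nonneg fun u => norm_nonneg _) (fun n => ?_)
      ((hb x hx2).mul_right (∫ u in Ioi (0 : ℝ), Real.exp ((-(z.re - x)) * u)))
    rw [← integral_const_mul]
    refine integral_mono (hI n).norm (hK.const_mul _) fun u => ?_
    simp only
    rw [norm_mul, Complex.norm_exp]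
    have e : (-z * (u : ℂ)).re = -z.re * u := by simp
    rw [e]
    calc ‖b n * ((Real.exp (-|u - l n|) : ℝ) : ℂ)‖ * Real.exp (-z.re * u) ≤
          (Real.exp (x * u) * (‖b n‖ * Real.exp (-(x * l n)))) * Real.exp (-z.re * u) :=
          mul_le_mul_of_nonneg_right (term_le (by linarith) hx1 u n) (Real.exp_pos _).le
      _ = (‖b n‖ * Real.exp (-(x * l n))) * (Real.exp (x * u) * Real.exp (-z.re * u)) := by ring
      _ = _ := by
          rw [← Real.exp_add]
          congr 2
          ring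
  have key := integral_tsum_of_summable_integral_norm hI hS
  have e1 : ∀ u : ℝ, ∑' n : κ, (b n * ((Real.exp (-|u - l n|) : ℝ) : ℂ)) * cexp (-z * u) =
      ES b l u * cexp (-z * u) := by
    intro u
    unfold ES
    rw [tsum_mul_right]
  simp_rw [e1] at key
  rw [← key]
  have e2 : ∀ n : κ, ∫ u in Ioi (0 : ℝ), (b n * ((Real.exp (-|u - l n|) : ℝ) : ℂ)) * cexp (-z * u) =
      2 / (1 - z ^ 2) * (b n * cexp (-z * l n)) - 1 / (1 - z) * (b n * cexp (-1 * l n)) := by
    intro n
    simp_rw [mul_assoc]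
    rw [integral_const_mul, base_int (by linarith) h1 (hl n)]
    have : (-1 : ℂ) * (l n : ℂ) = -(l n : ℂ) := by ring
    rw [this]
    ring
  simp_rw [e2]
  rw [Summable.tsum_sub ((DS_summable hb hz).mul_left _)
    ((DS_summable hb (z := 1) (by norm_num)).mul_left _), tsum_mul_left, tsum_mul_left]
  rfl

/-- restriction to the support -/
theorem LT_ES' {b : κ → ℂ} {l : κ → ℝ} (hl : ∀ k, 0 ≤ l k) (hb : HB b l) {z : ℂ}
    (hz : 1 / 2 < z.re) (h1 : z ≠ 1) :
    ∫ u in Ioi (0 : ℝ), ES b l u * cexp (-z * u) =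
      2 / (1 - z ^ 2) * DS b l z - 1 / (1 - z) * DS b l 1 := by
  have hc : (Function.support b).Countable := by
    have h2 := (hb 1 (by norm_num)).countable_support
    refine h2.mono fun n hn => ?_
    rw [Function.mem_support] at hn ⊢
    exact mul_ne_zero (norm_ne_zero_iff.2 hn) (Real.exp_pos _).ne'
  haveI : Countable (Function.support b) := hc.to_subtype
  have hsub : ∀ (g : κ → ℂ), ∑' n : Function.support b, b n * g n = ∑' n : κ, b n * g n := by
    intro g
    refine tsum_subtype_eq_of_support_subset (f := fun n => b n * g n) fun n hn => ?_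
    rw [Function.mem_support] at hn ⊢
    exact left_ne_zero_of_mul hn
  have hb' : HB (fun n : Function.support b => b n) (fun n => l n) := by
    intro x hx
    exact (hb x hx).comp_injective Subtype.val_injective
  have h3 := LT_ES (b := fun n : Function.support b => b n) (l := fun n => l n)
    (fun k => hl k) hb' hz h1
  have e1 : ∀ u, ES (fun n : Function.support b => b n) (fun n => l n) u = ES b l u := fun u =>
    hsub (fun n => ((Real.exp (-|u - l n|) : ℝ) : ℂ))
  have e2 : ∀ w, DS (fun n : Function.support b => b n) (fun n => l n) w = DS b l w := fun w =>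
    hsub (fun n => cexp (-w * l n))
  simp_rw [e1, e2] at h3
  exact h3

theorem t_LTG_core (κ : Type) (b : κ → ℂ) (l : κ → ℝ) (hl : ∀ k, 0 ≤ l k)
    (hb : ∀ x : ℝ, 1 / 2 < x → Summable (fun k => ‖b k‖ * Real.exp (-(x * l k)))) :
    Continuous (fun u : ℝ => ∑' k, b k * ((Real.exp (-|u - l k|) : ℝ) : ℂ)) ∧
    ∀ z : ℂ, 1 / 2 < z.re → z ≠ 1 →
      IntegrableOn (fun u : ℝ => (∑' k, b k * ((Real.exp (-|u - l k|) : ℝ) : ℂ)) * cexp (-z * u)) (Ioi 0) ∧
      ∫ u in Ioi (0 : ℝ), (∑' k, b k * ((Real.exp (-|u - l k|) : ℝ) : ℂ)) * cexp (-z * u) =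
        2 / (1 - z ^ 2) * (∑' k, b k * cexp (-z * l k)) -
          1 / (1 - z) * (∑' k, b k * cexp (-1 * (l k : ℂ))) :=
  ⟨ES_cont hb, fun z hz h1 => ⟨LT_intble hb hz, LT_ES' hl hb hz h1⟩⟩

end Pool.Agent.Q151.NF
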