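import Mathlib

set_option autoImplicit false
set_option linter.all false

/-! Project NF (helper253), job ORDL (helper151): the core. -/

namespace Pool.Agent.Q151.NF

open Complex Filter Topology Set

theorem order_X_ne_top {X : ℂ → ℂ} (hX : Differentiable ℂ X) (hst : ∀ z, X z = 0 → |z.re| ≤ 1 / 2)
    (a : ℂ) : analyticOrderAt X a ≠ ⊤ := by
  intro h
  rw [analyticOrderAt_eq_top] at h
  have h1 : AnalyticOnNhd ℂ X univ := fun z _ => hX.analyticAt z
  have h2 := h1.eqOn_zero_of_preconnected_of_eventuallyEq_zero isPreconnected_univ (mem_univ a) h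
  have h3 := hst 1 (h2 (mem_univ _))
  rw [one_re, abs_one] at h3
  norm_num at h3

/-- the order of `s (s - 1)` for `Re s > 0` -/
theorem order_ss {s : ℂ} (hs : 0 < s.re) (p : ℕ) :
    meromorphicOrderAt (fun t : ℂ => ((t * (t - 1)) ^ p)⁻¹) s =
      ((-(if s = 1 then (p : ℤ) else 0) : ℤ) : WithTop ℤ) := by
  have hs0 : s ≠ 0 := by
    rintro rfl
    simp at hs
  have hm : MeromorphicAt (fun t : ℂ => ((t * (t - 1)) ^ p)⁻¹) s := by fun_prop
  rw [meromorphicOrderAt_eq_int_iff hm]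
  by_cases h : s = 1
  · subst h
    refine ⟨fun t => (t ^ p)⁻¹, ?_, by simp, ?_⟩
    · exact (analyticAt_id.pow p).inv (by simp)
    · refine Eventually.of_forall fun t => ?_
      rw [if_pos rfl, smul_eq_mul, zpow_neg, zpow_natCast, mul_pow, mul_inv, mul_comm]
  · refine ⟨fun t => ((t * (t - 1)) ^ p)⁻¹, ?_, ?_, ?_⟩
    · refine ((analyticAt_id.mul (analyticAt_id.sub analyticAt_const)).pow p).inv ?_
      exact pow_ne_zero _ (mul_ne_zero hs0 (sub_ne_zero.2 h))
    · exact inv_ne_zero (pow_ne_zero _ (mul_ne_zero hs0 (sub_ne_zero.2 h)))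
    · refine Eventually.of_forall fun t => ?_
      simp [h]

theorem ordl_core (X : ℂ → ℂ) (hX : Differentiable ℂ X) (hst : ∀ z, X z = 0 → |z.re| ≤ 1 / 2)
    (p : ℕ) (c : ℂ) (hc : c ≠ 0) (Q : ℂ) (hQ : Q ≠ 0) (G : ℂ → ℂ) (hG : Differentiable ℂ G)
    (hG0 : ∀ s : ℂ, 0 < s.re → G s ≠ 0) (L : ℂ → ℂ)
    (h : ∀ z : ℂ, 1 / 2 < z.re → X z = c * (((1 / 2 + z) * (z - 1 / 2)) ^ p *
      Q ^ ((1 / 2 + z) / 2) * (G (1 / 2 + z))⁻¹ * L (1 / 2 + z))) :
    ∃ f0 : ℂ → ℂ, MeromorphicOn f0 univ ∧ (∀ s : ℂ, 1 < s.re → f0 s = L s) ∧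
      ∀ s : ℂ, 0 < s.re → meromorphicOrderAt f0 s =
        (((analyticOrderNatAt X (s - 1 / 2) : ℤ) - (if s = 1 then (p : ℤ) else 0) : ℤ) :
          WithTop ℤ) := by
  have hU : ∀ s : ℂ, AnalyticAt ℂ (fun t : ℂ => c⁻¹ * Q ^ (-(t / 2)) * G t) s := by
    intro s
    have h1 : Differentiable ℂ (fun t : ℂ => c⁻¹ * Q ^ (-(t / 2)) * G t) := by
      intro t
      refine DifferentiableAt.mul (DifferentiableAt.mul (by fun_prop) ?_) (hG t)
      exact DifferentiableAt.const_cpow (by fun_prop) (Or.inl hQ)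
    exact h1.analyticAt s
  have hXs : ∀ s : ℂ, AnalyticAt ℂ (fun t : ℂ => X (t - 1 / 2)) s := by
    intro s
    have h1 : Differentiable ℂ (fun t : ℂ => X (t - 1 / 2)) :=
      hX.comp (differentiable_id.sub_const _)
    exact h1.analyticAt s
  have hC : ∀ s : ℂ, MeromorphicAt (fun t : ℂ => ((t * (t - 1)) ^ p)⁻¹) s := by
    intro s
    fun_prop
  refine ⟨fun t => X (t - 1 / 2) * (c⁻¹ * Q ^ (-(t / 2)) * G t) * ((t * (t - 1)) ^ p)⁻¹,
    fun s _ => ((hXs s).meromorphicAt.mul (hU s).meromorphicAt).mul (hC s), fun s hs => ?_,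
    fun s hs => ?_⟩
  · have h1 := h (s - 1 / 2) (by
      rw [sub_re]
      have : ((1 : ℂ) / 2).re = 1 / 2 := by norm_num
      rw [this]
      linarith)
    have e1 : (1 : ℂ) / 2 + (s - 1 / 2) = s := by ring
    have e2 : s - 1 / 2 - 1 / 2 = s - 1 := by ring
    rw [e1, e2] at h1
    have hs0 : s ≠ 0 := by
      rintro rfl
      simp at hs
      linarith
    have hs1 : s - 1 ≠ 0 := by
      intro h2
      have h3 := congrArg Complex.re h2
      rw [sub_re, one_re, zero_re] at h3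
      linarith
    have hg := hG0 s (by linarith)
    have hq : Q ^ (s / 2) ≠ 0 := by
      rw [Ne, cpow_eq_zero_iff]
      exact fun h2 => hQ h2.1
    have hp : (s * (s - 1)) ^ p ≠ 0 := pow_ne_zero _ (mul_ne_zero hs0 hs1)
    show X (s - 1 / 2) * (c⁻¹ * Q ^ (-(s / 2)) * G s) * ((s * (s - 1)) ^ p)⁻¹ = L s
    rw [h1, cpow_neg]
    field_simp
  · have h1 : meromorphicOrderAt (fun t : ℂ => X (t - 1 / 2)) s =
        ((analyticOrderNatAt X (s - 1 / 2) : ℤ) : WithTop ℤ) := by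
      have h2 := meromorphicOrderAt_fun_comp_sub_const_eq_meromorphicOrderAt (x := s)
        (c := (1 / 2 : ℂ)) (f := X)
      rw [h2, (hX.analyticAt _).meromorphicOrderAt_eq,
        ← Nat.cast_analyticOrderNatAt (order_X_ne_top hX hst _)]
      rfl
    have h2 : meromorphicOrderAt (fun t : ℂ => c⁻¹ * Q ^ (-(t / 2)) * G t) s = 0 := by
      rw [(hU s).meromorphicOrderAt_eq, (hU s).analyticOrderAt_eq_zero.2]
      · rfl
      · refine mul_ne_zero (mul_ne_zero (inv_ne_zero hc) ?_) (hG0 s hs)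
        rw [Ne, cpow_eq_zero_iff]
        exact fun h2 => hQ h2.1
    have h3 := order_ss hs p
    have h4 : meromorphicOrderAt (fun t => X (t - 1 / 2) * (c⁻¹ * Q ^ (-(t / 2)) * G t)) s =
        ((analyticOrderNatAt X (s - 1 / 2) : ℤ) : WithTop ℤ) := by
      have := meromorphicOrderAt_mul (hXs s).meromorphicAt (hU s).meromorphicAt
      rw [h1, h2, add_zero] at this
      exact this
    have h5 := meromorphicOrderAt_mul ((hXs s).meromorphicAt.mul (hU s).meromorphicAt) (hC s)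
    have h6 : meromorphicOrderAt (fun t => X (t - 1 / 2) * (c⁻¹ * Q ^ (-(t / 2)) * G t) *
        ((t * (t - 1)) ^ p)⁻¹) s = meromorphicOrderAt ((fun t => X (t - 1 / 2)) *
        (fun t => c⁻¹ * Q ^ (-(t / 2)) * G t)) s +
        meromorphicOrderAt (fun t : ℂ => ((t * (t - 1)) ^ p)⁻¹) s := h5
    have h7 : meromorphicOrderAt ((fun t => X (t - 1 / 2)) *
        (fun t => c⁻¹ * Q ^ (-(t / 2)) * G t)) s =
        ((analyticOrderNatAt X (s - 1 / 2) : ℤ) : WithTop ℤ) := h4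
    rw [h6, h7, h3, ← WithTop.coe_add, ← sub_eq_add_neg]

/-- the inverse of the Gamma factor -/
theorem gamma_core {ι : Type} [Fintype ι] (R : ι → Prop) [DecidablePred R] (e : ι → ℕ) :
    Differentiable ℂ (fun s : ℂ => ∏ w, if R w then (Gammaℝ (s + e w))⁻¹ else (Gammaℂ s)⁻¹) ∧
    (∀ s : ℂ, 0 < s.re → (∏ w, if R w then (Gammaℝ (s + e w))⁻¹ else (Gammaℂ s)⁻¹) ≠ 0) ∧
    ∀ s : ℂ, (∏ w, if R w then (Gammaℝ (s + e w))⁻¹ else (Gammaℂ s)⁻¹) =
      (∏ w, if R w then Gammaℝ (s + e w) else Gammaℂ s)⁻¹ := by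
  refine ⟨?_, fun s hs => ?_, fun s => ?_⟩
  · refine Differentiable.fun_finsetProd fun w _ => ?_
    by_cases h : R w
    · simp only [if_pos h]
      exact differentiable_Gammaℝ_inv.comp (differentiable_id.add_const _)
    · simp only [if_neg h]
      exact differentiable_Gammaℂ_inv
  · refine Finset.prod_ne_zero_iff.2 fun w _ => ?_
    by_cases h : R w
    · rw [if_pos h]
      refine inv_ne_zero (Gammaℝ_ne_zero_of_re_pos ?_)
      rw [add_re, natCast_re]
      have : (0 : ℝ) ≤ e w := Nat.cast_nonneg _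
      linarith
    · rw [if_neg h, ← Gammaℝ_mul_Gammaℝ_add_one]
      refine inv_ne_zero (mul_ne_zero (Gammaℝ_ne_zero_of_re_pos hs)
        (Gammaℝ_ne_zero_of_re_pos ?_))
      rw [add_re, one_re]
      linarith
  · rw [← Finset.prod_inv_distrib]
    refine Finset.prod_congr rfl fun w _ => ?_
    split_ifs <;> rfl

end Pool.Agent.Q151.NF
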