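import Pool.Agent.Q253.NF.Stm2
import Pool.Agent.Q151.NF.OrdCore
import Pool.Agent.Q151.NF.Ltg

set_option autoImplicit false
set_option linter.all false

/-! Project NF (helper253), jobs LTG, ORDL (helper151). -/

namespace Pool.Agent.Q151.NF

open MeasureTheory Filter Topology Set Complex NumberField IsDedekindDomain
open Pool.Agent.Q92.AR (Continues)
open Pool.Agent.Q253.NF
open Pool.Agent.Y773 (LI)

theorem t_LTG : S_LTG := fun κ b l hl hb => t_LTG_core κ b l hl hb

theorem t_ORDL : S_ORDL := by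
  classical
  intro F _ _ 𝔣 e ψ D hP hD
  obtain ⟨c, hc, hX⟩ := hD.X
  obtain ⟨g1, g2, g3⟩ := gamma_core (fun w : InfinitePlace F => w.IsReal) e
  have hQ : (((Ideal.absNorm 𝔣 : ℝ) * |(discr F : ℝ)| : ℝ) : ℂ) ≠ 0 := by
    rw [Ne, ofReal_eq_zero]
    refine mul_ne_zero ?_ (abs_ne_zero.2 (Int.cast_ne_zero.2 (discr_ne_zero F)))
    rw [Nat.cast_ne_zero, Ne, Ideal.absNorm_eq_zero_iff]
    exact hP.ne_bot
  obtain ⟨f0, hm, hf0, hord⟩ := ordl_core D.X D.diff D.strip D.p c hc _ hQ _ g1 g2 (LI ψ)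
    (fun z hz => by
      rw [hX z hz, g3, inv_inv]
      have hg : gam e (1 / 2 + z) = ∏ w : InfinitePlace F,
          if w.IsReal then Gammaℝ (1 / 2 + z + e w) else Gammaℂ (1 / 2 + z) := by
        unfold gam
        refine Finset.prod_congr rfl fun w _ => ?_
        by_cases hw : w.IsReal
        · simp only [if_pos hw]
        · simp only [if_neg hw]
      rw [hg])
  refine ⟨⟨f0, hm, hf0⟩, fun f hf s hs => ?_⟩
  rw [hf.order_eq ⟨hm, hf0⟩ (fun _ _ => rfl) s]
  exact hord s hs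

end Pool.Agent.Q151.NF
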